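import Mathlib
import Pool.Agent.W301.SS.Core

/-!
# Vinogradov's bound with the decay away from the rational point, and the kernel
-/

set_option autoImplicit false

namespace Pool.Agent.K1H40.RD

open Finset Filter
open Pool.Agent.W301.SS
open Pool.Agent.H807R2.Dav

/-! ### The kernel -/

lemma FK_triv (H : ℕ) (hH : 1 ≤ H) (x : ℝ) : ‖FK H x / H‖ ≤ 1 := by
  have hH0 : (0 : ℝ) < H := by exact_mod_cast hH
  rw [norm_div, Complex.norm_natCast, div_le_iff₀ hH0, one_mul]
  unfold FK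
  refine (norm_sum_le _ _).trans ?_
  simp only [norm_ee, sum_const, Nat.card_Ioc, nsmul_eq_mul, mul_one, Nat.sub_zero, le_refl]

lemma FK_per (H : ℕ) (x : ℝ) (n : ℤ) : FK H x = FK H (x - n) := by
  unfold FK
  apply sum_congr rfl
  intro h _
  have e : (h : ℝ) * x = (h : ℝ) * (x - n) + (((h : ℤ) * n : ℤ) : ℝ) := by push_cast; ring
  rw [e, ee_add_int]

lemma dd_far (q : ℕ) (a : ℤ) (hq : 2 ≤ q) (hc : IsCoprime a (q : ℤ)) (x : ℝ)
    (hx : |x - a / q| ≤ 1 / (2 * (q : ℝ))) : 2 / (q : ℝ) ≤ dd x := by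
  have hq0 : (0 : ℝ) < q := by exact_mod_cast (by omega : 0 < q)
  have key : ∀ n : ℤ, 1 / (2 * (q : ℝ)) ≤ |x - n| := by
    intro n
    have h1 : a - n * q ≠ 0 := by
      intro h
      have h2 : (q : ℤ) ∣ a := ⟨n, by linarith⟩
      have h3 : IsUnit (q : ℤ) := hc.isUnit_of_dvd' h2 dvd_rfl
      rw [Int.isUnit_iff] at h3
      omega
    have h2 : (1 : ℝ) ≤ |((a - n * q : ℤ) : ℝ)| := by
      have := Int.one_le_abs h1
      exact_mod_cast this
    have h3 : |((a - n * q : ℤ) : ℝ)| = q * |(a : ℝ) / q - n| := by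
      rw [← abs_of_pos hq0, ← abs_mul, abs_of_pos hq0]
      congr 1
      push_cast
      field_simp
    have h4 : 1 / (q : ℝ) ≤ |(a : ℝ) / q - n| := by
      rw [div_le_iff₀ hq0]
      linarith
    have h5 : |(a : ℝ) / q - n| ≤ |x - a / q| + |x - n| := by
      have : (a : ℝ) / q - n = (x - n) - (x - a / q) := by ring
      rw [this]
      have := abs_sub (x - (n : ℝ)) (x - a / q)
      linarith
    have h6 : 1 / (q : ℝ) = 1 / (2 * (q : ℝ)) + 1 / (2 * (q : ℝ)) := by
      field_simp; norm_num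
    linarith
  have h1 : dd x = dd (Int.fract x) := by
    have : x = Int.fract x + (⌊x⌋ : ℤ) := by rw [Int.fract_add_floor]
    conv_lhs => rw [this]
    rw [dd_add_int]
  rw [h1]
  have h2 := dd_ge (Int.fract_nonneg x) (Int.fract_lt_one x).le
  refine le_trans ?_ h2
  have h3 := key ⌊x⌋
  have h4 := key (⌊x⌋ + 1)
  have h5 : |x - (⌊x⌋ : ℤ)| = Int.fract x := by
    rw [Int.self_sub_floor, abs_of_nonneg (Int.fract_nonneg x)]
  have h6 : |x - ((⌊x⌋ + 1 : ℤ) : ℝ)| = 1 - Int.fract x := by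
    have : x - ((⌊x⌋ + 1 : ℤ) : ℝ) = -(1 - Int.fract x) := by
      rw [← Int.self_sub_floor]; push_cast; ring
    rw [this, abs_neg, abs_of_nonneg]
    have := (Int.fract_lt_one x).le
    linarith
  rw [h5] at h3
  rw [h6] at h4
  have h7 : 1 / (2 * (q : ℝ)) ≤ min (Int.fract x) (1 - Int.fract x) := le_min h3 h4
  have h8 : 2 / (q : ℝ) = 4 * (1 / (2 * (q : ℝ))) := by field_simp; norm_num
  rw [h8]
  linarith

lemma FK_q (q : ℕ) (a : ℤ) (hq : 2 ≤ q) (hc : IsCoprime a (q : ℤ)) (x : ℝ)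
    (hx : |x - a / q| ≤ 1 / (2 * (q : ℝ))) (H : ℕ) (hH : 1 ≤ H) :
    ‖FK H x / H‖ ≤ 3 * q / (2 * H) := by
  have hq0 : (0 : ℝ) < q := by exact_mod_cast (by omega : 0 < q)
  have hH0 : (0 : ℝ) < H := by exact_mod_cast hH
  have h1 := dd_far q a hq hc x hx
  have h2 := FK_far H hH x
  refine h2.trans ?_
  have h3 : (H : ℝ) * (2 / q) ≤ 1 + H * dd x := by
    have := mul_le_mul_of_nonneg_left h1 hH0.le
    linarith
  have h4 : 3 * (q : ℝ) / (2 * H) = 3 / ((H : ℝ) * (2 / q)) := by
    field_simp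
  rw [h4]
  exact div_le_div_of_nonneg_left (by norm_num) (by positivity) h3

theorem t_KER : ∀ (H H1 : ℕ), 1 ≤ H → H ≤ H1 → ∀ x : ℝ,
    ‖FK H x / H - FK H1 x / H1‖ ≤ 2 ∧
    (∀ n : ℤ, ‖FK H x / H - FK H1 x / H1‖ ≤ 4 * Real.pi * (H1 * |x - n|)) ∧
    (∀ (q : ℕ) (a : ℤ), 2 ≤ q → IsCoprime a (q : ℤ) → |x - a / q| ≤ 1 / (2 * (q : ℝ)) →
      ‖FK H x / H - FK H1 x / H1‖ ≤ 3 * q / H) := by
  intro H H1 hH hHH x
  have hH1 : 1 ≤ H1 := hH.trans hHH
  have hH0 : (0 : ℝ) < H := by exact_mod_cast hH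
  have hc : (H : ℝ) ≤ H1 := by exact_mod_cast hHH
  refine ⟨?_, ?_, ?_⟩
  · have h1 := FK_triv H hH x
    have h2 := FK_triv H1 hH1 x
    have h3 := norm_sub_le (FK H x / H) (FK H1 x / H1)
    linarith
  · intro n
    rw [FK_per H x n, FK_per H1 x n]
    have h1 := FK_near H hH (x - n)
    have h2 := FK_near H1 hH1 (x - n)
    have h3 := norm_sub_le (FK H (x - n) / H - 1) (FK H1 (x - n) / H1 - 1)
    rw [sub_sub_sub_cancel_right] at h3
    have h4 : 2 * Real.pi * ((H : ℝ) * |x - n|) ≤ 2 * Real.pi * (H1 * |x - n|) := by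
      have := Real.pi_pos
      gcongr
    linarith
  · intro q a hq hcop hx
    have h1 := FK_q q a hq hcop x hx H hH
    have h2 := FK_q q a hq hcop x hx H1 hH1
    have h3 := norm_sub_le (FK H x / H) (FK H1 x / H1)
    have h4 : 3 * (q : ℝ) / (2 * H1) ≤ 3 * q / (2 * H) := by
      gcongr
    have h5 : 3 * (q : ℝ) / H = 3 * q / (2 * H) + 3 * q / (2 * H) := by
      field_simp; norm_num
    rw [h5]
    linarith

/-! ### Vinogradov's bound with decay -/

lemma root_le {x : ℝ} (hx : 1 ≤ x) : √(x * √x) ≤ x ^ (4 / 5 : ℝ) := by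
  have h0 : 0 ≤ x := by linarith
  have h1 : x * √x = x ^ (3 / 2 : ℝ) := by
    rw [Real.sqrt_eq_rpow, ← Real.rpow_one_add' h0 (by norm_num)]
    norm_num
  rw [h1, Real.sqrt_eq_rpow, ← Real.rpow_mul h0]
  exact Real.rpow_le_rpow_of_exponent_le hx (by norm_num)

theorem t_SP : ∃ C : ℝ, 0 < C ∧ ∀ N q : ℕ, 1 ≤ N → 1 ≤ q → (q : ℝ) ≤ √(N : ℝ) → ∀ a : ℤ, IsCoprime a (q : ℤ) →
    ∀ α : ℝ, |α - a / q| ≤ 1 / ((q : ℝ) * √(N : ℝ)) →
      ‖SP N α‖ ≤ C * (1 + Real.log N) ^ 7 * ((N : ℝ) ^ (4 / 5 : ℝ) + N / √((q : ℝ) * (1 + N * |α - a / q|))) := by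
  obtain ⟨C, hC, h⟩ := vinoP
  refine ⟨3 * C, by positivity, ?_⟩
  intro N q hN hq hqN a hcop α hα
  have hN1 : (1 : ℝ) ≤ N := by exact_mod_cast hN
  have hN0 : (0 : ℝ) < N := by linarith
  have hq1 : (1 : ℝ) ≤ q := by exact_mod_cast hq
  have hq0 : (0 : ℝ) < q := by linarith
  have hL : 0 ≤ (1 + Real.log N) ^ 7 := by
    have := Real.log_nonneg hN1
    positivity
  have hs0 : 0 < √(N : ℝ) := Real.sqrt_pos.2 hN0
  have hss : √(N : ℝ) * √(N : ℝ) = N := Real.mul_self_sqrt hN0.le
  set b : ℝ := |α - a / q| with hb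
  have hb0 : 0 ≤ b := abs_nonneg _
  have hroot := root_le hN1
  set Z : ℝ := (N : ℝ) ^ (4 / 5 : ℝ) with hZ
  have hZ0 : 0 < Z := by positivity
  set Y : ℝ := N / √((q : ℝ) * (1 + N * b)) with hY
  have hY0 : 0 < Y := by positivity
  suffices hV : ∃ q' : ℕ, 1 ≤ q' ∧ (∃ c : ℤ, IsCoprime c (q' : ℤ) ∧ |α - c / q'| ≤ 1 / (q' : ℝ) ^ 2) ∧
      VB N q' ≤ 3 * (Z + Y) by
    obtain ⟨q', hq', ⟨c, hc, hc2⟩, hV⟩ := hV
    have h1 := h N q' hN hq' c hc α hc2
    refine h1.trans ?_
    have h2 : 0 ≤ C * (1 + Real.log N) ^ 7 := mul_nonneg hC.le hL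
    have h3 := mul_le_mul_of_nonneg_left hV h2
    refine h3.trans (le_of_eq ?_)
    ring
  rcases le_or_gt (N * b) 1 with hNb | hNb
  · refine ⟨q, hq, ⟨a, hcop, ?_⟩, ?_⟩
    · refine hα.trans ?_
      rw [sq]
      exact div_le_div_of_nonneg_left zero_le_one (by positivity)
        (mul_le_mul_of_nonneg_left hqN hq0.le)
    · unfold VB
      have h1 : √((N : ℝ) * q) ≤ Z :=
        (Real.sqrt_le_sqrt (mul_le_mul_of_nonneg_left hqN hN0.le)).trans hroot
      have h2 : (N : ℝ) / √q ≤ 2 * Y := by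
        rw [hY]
        have h3 : √((q : ℝ) * (1 + N * b)) ≤ 2 * √q := by
          have : 2 * √(q : ℝ) = √(4 * q) := by
            rw [Real.sqrt_mul (show (0 : ℝ) ≤ 4 by norm_num), show (4 : ℝ) = 2 ^ 2 by norm_num,
              Real.sqrt_sq (by norm_num)]
          rw [this]
          apply Real.sqrt_le_sqrt
          nlinarith
        have h4 : 0 < √(q : ℝ) := Real.sqrt_pos.2 hq0
        have h5 : 0 < √((q : ℝ) * (1 + N * b)) := by positivity
        rw [div_le_iff₀ h4]
        have : 2 * (N / √((q : ℝ) * (1 + N * b))) * √q = N * ((2 * √q) / √((q : ℝ) * (1 + N * b))) := by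
          ring
        rw [this]
        have h6 : 1 ≤ (2 * √(q : ℝ)) / √((q : ℝ) * (1 + N * b)) := by
          rw [le_div_iff₀ h5, one_mul]
          exact h3
        nlinarith
      have h0 : (N : ℝ) / √q + (N : ℝ) ^ (4 / 5 : ℝ) + √((N : ℝ) * q) ≤ 3 * (Z + Y) := by
        rw [← hZ]
        linarith
      exact h0
  · have hbpos : 0 < b := by
      by_contra hcon
      have : b = 0 := le_antisymm (not_lt.1 hcon) hb0
      rw [this] at hNb
      norm_num at hNb
    have hqb : 0 < (q : ℝ) * b := by positivity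
    -- `q b √N ≤ 1`
    have hqbs : (q : ℝ) * b * √(N : ℝ) ≤ 1 := by
      have h1 : b * ((q : ℝ) * √(N : ℝ)) ≤ 1 := by
        rw [le_div_iff₀ (by positivity)] at hα
        exact hα
      linarith
    have hs1 : 1 ≤ √(N : ℝ) := Real.one_le_sqrt.2 hN1
    set n : ℕ := ⌈2 / ((q : ℝ) * b)⌉₊ with hn
    have hn1 : 2 / ((q : ℝ) * b) ≤ n := Nat.le_ceil _
    have hn2 : (n : ℝ) < 2 / ((q : ℝ) * b) + 1 := Nat.ceil_lt_add_one (by positivity)
    have hn3 : 2 * √(N : ℝ) ≤ 2 / ((q : ℝ) * b) := by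
      rw [le_div_iff₀ hqb]
      linarith
    have hnpos : 0 < n := by
      rw [hn, Nat.ceil_pos]
      positivity
    obtain ⟨r, hr1, hr2⟩ := Real.exists_rat_abs_sub_le_and_den_le α hnpos
    have hden0 : (0 : ℝ) < r.den := by exact_mod_cast r.den_pos
    have hrd : (r : ℝ) = (r.num : ℝ) / (r.den : ℝ) := Rat.cast_def r
    have hrn : (r.den : ℝ) ≤ n := by exact_mod_cast hr2
    refine ⟨r.den, r.den_pos, ⟨r.num, ?_, ?_⟩, ?_⟩
    · rw [Int.isCoprime_iff_nat_coprime]
      simpa using r.reduced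
    · rw [← hrd]
      refine hr1.trans ?_
      rw [sq]
      exact div_le_div_of_nonneg_left zero_le_one (by positivity)
        (mul_le_mul_of_nonneg_right (by linarith) hden0.le)
    · -- lower bound for the denominator
      have hlow : 1 ≤ 2 * ((q : ℝ) * b) * r.den := by
        have hne : a * r.den - r.num * q ≠ 0 := by
          intro h0
          have h1 : (a : ℝ) / q = (r.num : ℝ) / (r.den : ℝ) := by
            rw [div_eq_div_iff hq0.ne' hden0.ne']
            have : ((a * r.den - r.num * q : ℤ) : ℝ) = 0 := by rw [h0]; simp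
            push_cast at this
            linarith
          have hqd : q = r.den := by
            have h2 : (q : ℤ) ∣ r.den := by
              have : (q : ℤ) ∣ a * r.den := ⟨r.num, by linarith⟩
              exact hcop.symm.dvd_of_dvd_mul_left this
            have h3 : (r.den : ℤ) ∣ q := by
              have h4 : (r.den : ℤ) ∣ r.num * q := ⟨a, by linarith⟩
              have h5 : IsCoprime (r.den : ℤ) r.num := by
                rw [isCoprime_comm, Int.isCoprime_iff_nat_coprime]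
                simpa using r.reduced
              exact h5.dvd_of_dvd_mul_left h4
            exact Nat.dvd_antisymm (by exact_mod_cast h2) (by exact_mod_cast h3)
          have h6 : b ≤ 1 / (((n : ℝ) + 1) * r.den) := by
            rw [hb, h1, ← hrd]
            exact hr1
          rw [← hqd, le_div_iff₀ (by positivity)] at h6
          rw [div_le_iff₀ hqb] at hn1
          nlinarith
        have h1 : (1 : ℝ) ≤ |((a * r.den - r.num * q : ℤ) : ℝ)| := by
          have := Int.one_le_abs hne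
          exact_mod_cast this
        have h2 : ((a * r.den - r.num * q : ℤ) : ℝ) =
            (q : ℝ) * r.den * ((α - r) - (α - a / q)) := by
          rw [hrd]
          push_cast
          field_simp
          ring
        rw [h2, abs_mul, abs_of_pos (by positivity : 0 < (q : ℝ) * r.den)] at h1
        have h3 := abs_sub (α - (r : ℝ)) (α - a / q)
        have h4 : (q : ℝ) * r.den * |(α - r) - (α - a / q)| ≤
            (q : ℝ) * r.den * (1 / (((n : ℝ) + 1) * r.den) + b) := by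
          apply mul_le_mul_of_nonneg_left _ (by positivity)
          linarith
        have h5 : (q : ℝ) * r.den * (1 / (((n : ℝ) + 1) * r.den) + b) =
            q / ((n : ℝ) + 1) + q * b * r.den := by
          field_simp
        have h6 : (q : ℝ) / ((n : ℝ) + 1) ≤ 1 / 2 := by
          rw [div_le_div_iff₀ (by positivity) (by norm_num)]
          linarith
        rw [h5] at h4
        linarith
      -- the three terms
      have hup : (r.den : ℝ) * ((q : ℝ) * b) ≤ 3 := by
        have h1 : (n : ℝ) * ((q : ℝ) * b) < 2 + (q : ℝ) * b := by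
          have := mul_lt_mul_of_pos_right hn2 hqb
          have h2 : (2 / ((q : ℝ) * b) + 1) * ((q : ℝ) * b) = 2 + (q : ℝ) * b := by
            field_simp
          rw [h2] at this
          exact this
        have h3 : (q : ℝ) * b ≤ 1 := by nlinarith
        have h4 : (r.den : ℝ) * ((q : ℝ) * b) ≤ n * ((q : ℝ) * b) :=
          mul_le_mul_of_nonneg_right hrn hqb.le
        linarith
      have hT1 : (N : ℝ) / √(r.den : ℝ) ≤ 2 * Z := by
        have h1 : √(N : ℝ) ≤ 2 * r.den := by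
          have h2 : √(N : ℝ) * 1 ≤ √(N : ℝ) * (2 * ((q : ℝ) * b) * r.den) :=
            mul_le_mul_of_nonneg_left hlow hs0.le
          have h3 : √(N : ℝ) * (2 * ((q : ℝ) * b) * r.den) =
              ((q : ℝ) * b * √(N : ℝ)) * (2 * r.den) := by ring
          rw [h3] at h2
          have h4 : ((q : ℝ) * b * √(N : ℝ)) * (2 * r.den) ≤ 1 * (2 * r.den) :=
            mul_le_mul_of_nonneg_right hqbs (by positivity)
          linarith
        have h5 : 0 < √(r.den : ℝ) := Real.sqrt_pos.2 hden0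
        rw [div_le_iff₀ h5]
        have h6 : (N : ℝ) ≤ 2 * √(N * √(N : ℝ)) * √(r.den : ℝ) := by
          have h7 : 2 * √(N * √(N : ℝ)) * √(r.den : ℝ) = √(4 * (N * √(N : ℝ) * r.den)) := by
            rw [Real.sqrt_mul (show (0 : ℝ) ≤ 4 by norm_num),
              Real.sqrt_mul (show (0 : ℝ) ≤ N * √(N : ℝ) by positivity) (r.den : ℝ),
              show (4 : ℝ) = 2 ^ 2 by norm_num, Real.sqrt_sq (by norm_num)]
            ring
          rw [h7]
          apply Real.le_sqrt_of_sq_le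
          have h8 : (N : ℝ) * √(N : ℝ) * √(N : ℝ) ≤ N * √(N : ℝ) * (2 * r.den) :=
            mul_le_mul_of_nonneg_left h1 (by positivity)
          have h9 : (N : ℝ) * √(N : ℝ) * √(N : ℝ) = N ^ 2 := by
            rw [mul_assoc, hss, sq]
          rw [h9] at h8
          have h10 : 0 ≤ (N : ℝ) * √(N : ℝ) * r.den := by positivity
          have h11 : (N : ℝ) * √(N : ℝ) * (2 * r.den) = 2 * (N * √(N : ℝ) * r.den) := by ring
          rw [h11] at h8
          linarith only [h8, h10]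
        refine h6.trans ?_
        apply mul_le_mul_of_nonneg_right _ h5.le
        linarith
      have hT2 : √((N : ℝ) * r.den) ≤ 3 * Y := by
        have h1 : 0 < √((q : ℝ) * (1 + N * b)) := by positivity
        rw [hY, ← mul_div_assoc, le_div_iff₀ h1, ← Real.sqrt_mul (by positivity)]
        apply Real.sqrt_le_iff.2
        refine ⟨by positivity, ?_⟩
        have h2 : (N : ℝ) * r.den * ((q : ℝ) * (1 + N * b)) ≤ N * r.den * (q * (2 * (N * b))) := by
          gcongr
          linarith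
        have h3 : (N : ℝ) * r.den * (q * (2 * (N * b))) = 2 * N ^ 2 * (r.den * (q * b)) := by ring
        rw [h3] at h2
        have h4 : 2 * (N : ℝ) ^ 2 * (r.den * (q * b)) ≤ 2 * N ^ 2 * 3 :=
          mul_le_mul_of_nonneg_left hup (by positivity)
        have h5 : (0 : ℝ) ≤ (N : ℝ) ^ 2 := sq_nonneg _
        have h6 : (3 * (N : ℝ)) ^ 2 = 9 * (N : ℝ) ^ 2 := by ring
        rw [h6]
        linarith only [h2, h4, h5]
      have h0 : (N : ℝ) / √(r.den : ℝ) + (N : ℝ) ^ (4 / 5 : ℝ) + √((N : ℝ) * r.den) ≤ 3 * (Z + Y) := by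
        rw [← hZ]
        linarith
      exact h0

end Pool.Agent.K1H40.RD
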